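import Pool.Agent.W_a862e4_h18.FinC

namespace Pool.Agent.Results.MP_a862e4_co.LogLinear

/-- Every finite graph `G` on `n` vertices whose chromatic number `k` satisfies
`k ≥ 2 ^ 41 (p + log₂ n + 1)` contains a `p`-scheme. -/
theorem result (V : Type) [Fintype V] (G : SimpleGraph V) (k p : ℕ)
    (hk : G.chromaticNumber = (k : ℕ∞))
    (h : 2 ^ 41 * (p + Nat.log 2 (Fintype.card V) + 1) ≤ k) :
    ∃ v : Fin p → V, Function.Injective v ∧
      ∃ C : Fin p → Fin p → Set V,
        (∀ i j, C i j = C j i) ∧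
        (∀ i j, i ≠ j →
          v i ∈ C i j ∧ v j ∈ C i j ∧ (G.induce (C i j)).Connected) ∧
        (∀ i j k l, i ≠ j → i ≠ k → i ≠ l → j ≠ k → j ≠ l → k ≠ l →
          Disjoint (C i j) (C k l)) := by
  by_contra hcon
  have hS : ¬ Pool.MP_a862e4_co.H18.Scheme G p := hcon
  have h1 := Pool.MP_a862e4_co.H18.main G p hS
  have h2 := h1.chromaticNumber_le
  rw [hk] at h2
  have h3 : k ≤ 2 ^ 22 * (9600 * (p + 4 * Nat.clog 2 (Fintype.card V) + 40)) := by
    exact_mod_cast h2
  have h4 : Nat.clog 2 (Fintype.card V) ≤ Nat.log 2 (Fintype.card V) + 1 := by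
    apply Nat.clog_le_of_le_pow
    exact (Nat.lt_pow_succ_log_self (by norm_num) _).le
  omega

end Pool.Agent.Results.MP_a862e4_co.LogLinear
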